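import Pool.Agent.Helper79.TW.KGa

/-!
# Project TW (tower), block KG, second part: automorphisms, descent of the field of constants
-/

set_option autoImplicit false

namespace Pool.Agent.TOW

open VC IntermediateField Pool.Agent.SC Pool.Agent.L Pool.Agent.M

noncomputable section

section au

variable {k K0 E U : Type} [Field k] [Field K0] [Field E] [Field U] [Algebra k K0]
  [Algebra k E] [Algebra E U] [Algebra K0 U] [Algebra k U] [IsScalarTower k E U]
  [IsScalarTower k K0 U] {r : U} {n : ℕ}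

omit [Field k] [Algebra k K0] [Algebra k E] [Algebra k U] [IsScalarTower k E U]
  [IsScalarTower k K0 U] in
theorem AuE.au79 {T : U ≃+* U} (h : AuE E K0 T) : Au E K0 T := ⟨h.fixK, fun e => ⟨e, h.fixE e⟩⟩

omit [Field k] [Algebra k K0] [Algebra k E] [Algebra k U] [IsScalarTower k E U]
  [IsScalarTower k K0 U] in
theorem AuE.mul79 {T S : U ≃+* U} (hT : AuE E K0 T) (hS : AuE E K0 S) : AuE E K0 (T * S) :=
  ⟨fun x => by
    change T (S _) = _
    rw [hS.fixK, hT.fixK], fun e => by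
    change T (S _) = _
    rw [hS.fixE, hT.fixE]⟩

omit [Field k] [Algebra k K0] [Algebra k E] [Algebra k U] [IsScalarTower k E U]
  [IsScalarTower k K0 U] in
theorem Au.mul79 {T S : U ≃+* U} (hT : Au E K0 T) (hS : Au E K0 S) : Au E K0 (T * S) :=
  ⟨fun x => by
    change T (S _) = _
    rw [hS.fixK, hT.fixK], fun e => by
    obtain ⟨e1, h1⟩ := hS.presE e
    obtain ⟨e2, h2⟩ := hT.presE e1
    refine ⟨e2, ?_⟩
    change T (S _) = _
    rw [h1, h2]⟩

omit [Field k] [Algebra k K0] [Algebra k E] [Algebra k U] [IsScalarTower k E U]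
  [IsScalarTower k K0 U] in
theorem AuE.inv79 {T : U ≃+* U} (h : AuE E K0 T) : AuE E K0 T⁻¹ :=
  ⟨fun x => by
    change T.symm _ = _
    rw [RingEquiv.symm_apply_eq, h.fixK], fun e => by
    change T.symm _ = _
    rw [RingEquiv.symm_apply_eq, h.fixE]⟩

theorem Au.exists_gal79 [Algebra.IsAlgebraic k E] {T : U ≃+* U} (h : Au E K0 T) :
    ∃ g : E ≃ₐ[k] E, ∀ e : E, T (algebraMap E U e) = algebraMap E U (g e) := by
  choose f hf using h.presE
  have hi := (algebraMap E U).injective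
  let F : E →ₐ[k] E :=
    { toFun := f
      map_one' := hi (by rw [← hf, map_one, map_one])
      map_mul' := fun x y => hi (by rw [← hf, map_mul, map_mul, map_mul, hf, hf])
      map_zero' := hi (by rw [← hf, map_zero, map_zero])
      map_add' := fun x y => hi (by rw [← hf, map_add, map_add, map_add, hf, hf])
      commutes' := fun a => hi (by
        rw [← hf, ← IsScalarTower.algebraMap_apply k E U, IsScalarTower.algebraMap_apply k K0 U,
          h.fixK]) }
  exact ⟨AlgEquiv.ofBijective F (Algebra.IsAlgebraic.algHom_bijective F), fun e => hf e⟩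

omit [Field k] [Field K0] [Algebra k K0] [Algebra k E] [Algebra K0 U] [Algebra k U]
  [IsScalarTower k E U] [IsScalarTower k K0 U] in
theorem moves_inv79 {N : IntermediateField E U} {T : U ≃+* U} {Q : Place E N} (h : Moves T N Q Q) :
    Moves T⁻¹ N Q Q := by
  intro x hx hx'
  have e : T (T⁻¹ x) = x := T.apply_symm_apply x
  have h1 := h (T⁻¹ x) hx' (by rw [e]; exact hx)
  rw [h1]
  simp only [e]

omit [Field k] [Field K0] [Algebra k K0] [Algebra k E] [Algebra K0 U] [Algebra k U]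
  [IsScalarTower k E U] [IsScalarTower k K0 U] in
theorem moves_mul79 {N : IntermediateField E U} {T S : U ≃+* U} {Q : Place E N}
    (hS : ∀ z ∈ N, S z ∈ N) (h : Moves T N Q Q) (h' : Moves S N Q Q) : Moves (T * S) N Q Q := by
  intro x hx hx'
  rw [h' x hx (hS x hx)]
  exact h (S x) (hS x hx) hx'

omit [Algebra k U] [IsScalarTower k E U] [IsScalarTower k K0 U] in
theorem act_au79 {c : k} {Φ : (E ≃ₐ[k] E) →* (U ≃+* U)} (hΦ : Act (K0 := K0) r c Φ)
    (g : E ≃ₐ[k] E) : Au E K0 (Φ g) := ⟨hΦ.fixK g, fun e => ⟨g e, hΦ.const g e⟩⟩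

omit [Algebra k U] [IsScalarTower k E U] [IsScalarTower k K0 U] in
theorem act_r79 [IsAlgClosed E] {c : k} (hc : c ≠ 0) {Φ : (E ≃ₐ[k] E) →* (U ≃+* U)}
    (hΦ : Act (K0 := K0) r c Φ) (g : E ≃ₐ[k] E) : Φ g r = r ∨ Φ g r = -r := by
  obtain ⟨d, hd⟩ := IsAlgClosed.exists_pow_nat_eq (algebraMap k E c) (n := 2) (by norm_num)
  have hc' : algebraMap k E c ≠ 0 := by
    rw [Ne, map_eq_zero]
    exact hc
  have hd0 : d ≠ 0 := by
    rintro rfl
    rw [zero_pow two_ne_zero] at hd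
    exact hc' hd.symm
  have h1 : (g d) ^ 2 = d ^ 2 := by
    rw [← map_pow, hd, AlgEquiv.commutes]
  have hi : algebraMap E U d ≠ 0 := by
    rw [Ne, map_eq_zero]
    exact hd0
  have h2 := hΦ.tw g d hd
  rcases sq_eq_sq_iff_eq_or_eq_neg.1 h1 with h | h
  · left
    rw [h, mul_comm] at h2
    exact mul_left_cancel₀ hi h2
  · right
    rw [h, map_neg, mul_comm, neg_mul] at h2
    apply mul_left_cancel₀ hi
    rw [mul_neg, ← h2, neg_neg]

omit [Field k] [Algebra k K0] [Algebra k E] [Algebra k U] [IsScalarTower k E U]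
  [IsScalarTower k K0 U] in
theorem aue_r79 {h : K0} (hr : r ^ 2 = algebraMap K0 U h) {T : U ≃+* U} (hT : AuE E K0 T) :
    T r = r ∨ T r = -r := by
  apply sq_eq_sq_iff_eq_or_eq_neg.1
  rw [← map_pow, hr, hT.fixK]

/-- fixed by the involutions over `L0` which fix the place `Q` -/
def FJ (Q : Place E (NX E K0 r (2 ^ n))) (z : U) : Prop :=
  z ∈ NX E K0 r (2 ^ n) ∧
    ∀ T : U ≃+* U, AuE E K0 T → T r = -r → Moves T (NX E K0 r (2 ^ n)) Q Q → T z = z

omit [Field k] [Algebra k K0] [Algebra k E] [Algebra k U] [IsScalarTower k E U]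
  [IsScalarTower k K0 U] in
theorem FJ.add79 {Q : Place E (NX E K0 r (2 ^ n))} {z w : U} (hz : FJ Q z) (hw : FJ Q w) :
    FJ Q (z + w) :=
  ⟨add_mem hz.1 hw.1, fun T h1 h2 h3 => by rw [map_add, hz.2 T h1 h2 h3, hw.2 T h1 h2 h3]⟩

omit [Field k] [Algebra k K0] [Algebra k E] [Algebra k U] [IsScalarTower k E U]
  [IsScalarTower k K0 U] in
theorem FJ.smul79 {Q : Place E (NX E K0 r (2 ^ n))} {z : U} (hz : FJ Q z) (e : E) :
    FJ Q (algebraMap E U e * z) :=
  ⟨mul_mem (IntermediateField.algebraMap_mem _ _) hz.1, fun T h1 h2 h3 => by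
    rw [map_mul, hz.2 T h1 h2 h3, h1.fixE]⟩

omit [Field k] [Algebra k K0] [Algebra k E] [Algebra k U] [IsScalarTower k E U]
  [IsScalarTower k K0 U] in
theorem FJ.zero79 (Q : Place E (NX E K0 r (2 ^ n))) : FJ Q (0 : U) :=
  ⟨zero_mem _, fun T _ _ _ => map_zero T⟩

omit [Field k] [Algebra k K0] [Algebra k E] [Algebra k U] [IsScalarTower k E U]
  [IsScalarTower k K0 U] in
theorem FJ.sum79 {Q : Place E (NX E K0 r (2 ^ n))} {ι : Type} (S : Finset ι) (f : ι → U)
    (h : ∀ i ∈ S, FJ Q (f i)) : FJ Q (∑ i ∈ S, f i) := by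
  classical
  induction S using Finset.induction_on with
  | empty =>
    rw [Finset.sum_empty]
    exact FJ.zero79 Q
  | insert i S hi ih =>
    rw [Finset.sum_insert hi]
    exact (h i (Finset.mem_insert_self _ _)).add79 (ih fun j hj => h j (Finset.mem_insert_of_mem hj))

omit [Algebra k U] [IsScalarTower k E U] [IsScalarTower k K0 U] in
/-- `FJ` is stable under the action -/
theorem FJ.act79 [IsAlgClosed E] {c : k} (hc : c ≠ 0) {Φ : (E ≃ₐ[k] E) →* (U ≃+* U)}
    (hΦ : Act (K0 := K0) r c Φ)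
    (hst : ∀ T : U ≃+* U, Au E K0 T → ∀ z ∈ NX E K0 r (2 ^ n), T z ∈ NX E K0 r (2 ^ n))
    {Q : Place E (NX E K0 r (2 ^ n))} (hQ : ∀ g : E ≃ₐ[k] E, Moves (Φ g) _ Q Q) {z : U}
    (hz : FJ Q z) (g : E ≃ₐ[k] E) : FJ Q (Φ g z) := by
  refine ⟨hst _ (act_au79 hΦ g) z hz.1, fun T hT hTr hTQ => ?_⟩
  have hinv : ∀ x : U, Φ g ((Φ g)⁻¹ x) = x := fun x => (Φ g).apply_symm_apply x
  have hinv' : ∀ x : U, (Φ g)⁻¹ (Φ g x) = x := fun x => (Φ g).symm_apply_apply x
  have hgi : (Φ g)⁻¹ = Φ g⁻¹ := (map_inv Φ g).symm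
  have h1 : AuE E K0 ((Φ g)⁻¹ * (T * Φ g)) := by
    refine ⟨fun x => ?_, fun e => ?_⟩
    · change (Φ g)⁻¹ (T (Φ g _)) = _
      rw [hΦ.fixK, hT.fixK, hgi, hΦ.fixK]
    · change (Φ g)⁻¹ (T (Φ g _)) = _
      rw [hΦ.const, hT.fixE, hgi, hΦ.const]
      congr 1
      exact g.symm_apply_apply e
  have h2 : ((Φ g)⁻¹ * (T * Φ g)) r = -r := by
    change (Φ g)⁻¹ (T (Φ g r)) = _
    rcases act_r79 hc hΦ g with h | h
    · have h3 : (Φ g)⁻¹ r = r := by
        conv_lhs => rw [← h]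
        exact hinv' r
      rw [h, hTr, map_neg, h3]
    · have h3 : (Φ g)⁻¹ r = -r := by
        have h4 : (Φ g)⁻¹ (Φ g r) = r := hinv' r
        rw [h, map_neg] at h4
        exact neg_eq_iff_eq_neg.1 h4
      rw [h, map_neg, hTr, neg_neg, h3]
  have hTN := hst T hT.au79
  have hgN := hst _ (act_au79 hΦ g)
  have h3 : Moves ((Φ g)⁻¹ * (T * Φ g)) _ Q Q :=
    moves_mul79 (fun z hz => hTN _ (hgN z hz)) (moves_inv79 (hQ g)) (moves_mul79 hgN hTQ (hQ g))
  have h4 := hz.2 _ h1 h2 h3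
  change (Φ g)⁻¹ (T (Φ g z)) = z at h4
  rw [← hinv (T (Φ g z)), h4]

theorem mem_KQ79 [Algebra.IsAlgebraic k E] {c : k} {Φ : (E ≃ₐ[k] E) →* (U ≃+* U)}
    (hΦ : Act (K0 := K0) r c Φ) {h : K0} (hr : r ^ 2 = algebraMap K0 U h)
    (hst : ∀ T : U ≃+* U, Au E K0 T → ∀ z ∈ NX E K0 r (2 ^ n), T z ∈ NX E K0 r (2 ^ n))
    (htriv : ∀ (T : U ≃+* U) (Q : Place E (NX E K0 r (2 ^ n))), AuE E K0 T → T r = r →
      Moves T _ Q Q → ∀ z ∈ NX E K0 r (2 ^ n), T z = z)
    {Q : Place E (NX E K0 r (2 ^ n))} (hQ : ∀ g : E ≃ₐ[k] E, Moves (Φ g) _ Q Q) {z : U}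
    (hz : FJ Q z) (hfix : ∀ g : E ≃ₐ[k] E, Φ g z = z) : z ∈ KQ Q := by
  refine ⟨hz.1, fun T hT hTQ => ?_⟩
  obtain ⟨g, hg⟩ := hT.exists_gal79 (k := k)
  have hgi : (Φ g)⁻¹ = Φ g⁻¹ := (map_inv Φ g).symm
  have h1 : AuE E K0 ((Φ g)⁻¹ * T) := by
    refine ⟨fun x => ?_, fun e => ?_⟩
    · change (Φ g)⁻¹ (T _) = _
      rw [hT.fixK, hgi, hΦ.fixK]
    · change (Φ g)⁻¹ (T _) = _
      rw [hg, hgi, hΦ.const]
      congr 1
      exact g.symm_apply_apply e
  have hM : Moves ((Φ g)⁻¹ * T) _ Q Q := moves_mul79 (hst T hT) (moves_inv79 (hQ g)) hTQ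
  have h2 : ((Φ g)⁻¹ * T) z = z := by
    rcases aue_r79 hr h1 with h | h
    · exact htriv _ Q h1 h hM z hz.1
    · exact hz.2 _ h1 h hM
  change (Φ g)⁻¹ (T z) = z at h2
  have h3 : Φ g ((Φ g)⁻¹ (T z)) = T z := (Φ g).apply_symm_apply _
  rw [← h3, h2, hfix]

/-- **Descent of the field of constants.** -/
theorem descent79 [CharZero k] [IsAlgClosed E] [Algebra.IsAlgebraic k E] {c : k} (hc : c ≠ 0)
    {Φ : (E ≃ₐ[k] E) →* (U ≃+* U)} (hΦ : Act (K0 := K0) r c Φ) {h : K0}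
    (hr : r ^ 2 = algebraMap K0 U h)
    (hst : ∀ T : U ≃+* U, Au E K0 T → ∀ z ∈ NX E K0 r (2 ^ n), T z ∈ NX E K0 r (2 ^ n))
    (htriv : ∀ (T : U ≃+* U) (Q : Place E (NX E K0 r (2 ^ n))), AuE E K0 T → T r = r →
      Moves T _ Q Q → ∀ z ∈ NX E K0 r (2 ^ n), T z = z)
    {Q : Place E (NX E K0 r (2 ^ n))} (hQ : ∀ g : E ≃ₐ[k] E, Moves (Φ g) _ Q Q) {z : U}
    (hz : FJ Q z) : z ∈ L0 E (KQ Q) (U := U) := by
  classical
  obtain ⟨L, hL, hLz⟩ := hΦ.cont z
  obtain ⟨α, hα⟩ := Field.exists_primitive_element k L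
  have hfix : ∀ g : E ≃ₐ[k] E, g (α : E) = α → Φ g z = z := by
    intro g hg
    apply hLz
    intro x hx
    have hx' : (⟨x, hx⟩ : L) ∈ k⟮α⟯ := by
      rw [hα]
      exact IntermediateField.mem_top
    have key : ∀ y : L, y ∈ k⟮α⟯ → g (y : E) = y := by
      intro y hy
      induction hy using IntermediateField.adjoin_induction with
      | mem y hy =>
        rw [Set.mem_singleton_iff] at hy
        rw [hy]
        exact hg
      | algebraMap a => exact g.commutes a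
      | add y w _ _ ihy ihw =>
        push_cast
        rw [map_add, ihy, ihw]
      | inv y _ ih =>
        push_cast
        rw [map_inv₀, ih]
      | mul y w _ _ ihy ihw =>
        push_cast
        rw [map_mul, ihy, ihw]
    exact key ⟨x, hx⟩ hx'
  set a : E := (α : E) with ha
  have hclos : IsAlgClosure k E := ⟨inferInstance, inferInstance⟩
  have hnorm : Normal k E := IsAlgClosure.normal k E
  have haint : IsIntegral k a := (Algebra.IsAlgebraic.isAlgebraic a).isIntegral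
  have hmp : minpoly k a ≠ 0 := minpoly.ne_zero haint
  set R : Finset E := ((minpoly k a).aroots E).toFinset with hR
  have hmemR : ∀ β : E, β ∈ R ↔ Polynomial.aeval β (minpoly k a) = 0 := by
    intro β
    rw [hR, Multiset.mem_toFinset, Polynomial.mem_aroots]
    exact ⟨fun h => h.2, fun h => ⟨hmp, h⟩⟩
  have haR : a ∈ R := (hmemR a).2 (minpoly.aeval k a)
  have hgg : ∀ β : E, ∃ g : E ≃ₐ[k] E, β ∈ R → g a = β := by
    intro β
    by_cases hβ : β ∈ R
    · obtain ⟨g, hg⟩ := minpoly.exists_algEquiv_of_root (Algebra.IsAlgebraic.isAlgebraic a)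
        ((hmemR β).1 hβ)
      exact ⟨g.symm, fun _ => by
        rw [AlgEquiv.symm_apply_eq]
        exact hg.symm⟩
    · exact ⟨1, fun h => absurd h hβ⟩
  choose gg hgg using hgg
  have hgR : ∀ (g : E ≃ₐ[k] E) (β : E), β ∈ R → g β ∈ R := by
    intro g β hβ
    rw [hmemR] at hβ ⊢
    have h1 : Polynomial.aeval (g β) (minpoly k a) = g (Polynomial.aeval β (minpoly k a)) :=
      Polynomial.aeval_algHom_apply (g : E →ₐ[k] E) β (minpoly k a)
    rw [h1, hβ, map_zero]
  -- the descended elements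
  let zi : ℕ → U := fun i => ∑ β ∈ R, Φ (gg β) (algebraMap E U (a ^ i) * z)
  have hziJ : ∀ i, FJ Q (zi i) := fun i =>
    FJ.sum79 _ _ fun β _ => (hz.smul79 (a ^ i)).act79 hc hΦ hst hQ (gg β)
  have hmul : ∀ (g g' : E ≃ₐ[k] E) (x : U), Φ (g * g') x = Φ g (Φ g' x) := by
    intro g g' x
    rw [map_mul]
    rfl
  have hfixi : ∀ (g : E ≃ₐ[k] E) (i : ℕ), g a = a →
      Φ g (algebraMap E U (a ^ i) * z) = algebraMap E U (a ^ i) * z := by
    intro g i hg
    rw [map_mul, hΦ.const, map_pow, hg, hfix g hg]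
  have hzifix : ∀ i (g : E ≃ₐ[k] E), Φ g (zi i) = zi i := by
    intro i g
    change Φ g (∑ β ∈ R, Φ (gg β) (algebraMap E U (a ^ i) * z)) = _
    rw [map_sum]
    refine Finset.sum_nbij (fun β => g β) (fun β hβ => hgR g β hβ) (fun β _ β' _ h => g.injective h)
      ?_ ?_
    · intro β hβ
      refine ⟨g.symm β, hgR g.symm β hβ, ?_⟩
      exact g.apply_symm_apply β
    · intro β hβ
      have h1 : gg (g β) * ((gg (g β))⁻¹ * (g * gg β)) = g * gg β := mul_inv_cancel_left _ _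
      rw [← hmul, ← h1, hmul]
      congr 1
      apply hfixi
      change (gg (g β)).symm (g (gg β a)) = a
      rw [AlgEquiv.symm_apply_eq, hgg β hβ, hgg (g β) (hgR g β hβ)]
  have hziK : ∀ i, zi i ∈ L0 E (KQ Q) (U := U) := fun i =>
    IntermediateField.subset_adjoin _ _
      ⟨⟨zi i, mem_KQ79 hΦ hr hst htriv hQ (hziJ i) (hzifix i)⟩, rfl⟩
  -- interpolation
  let q : Polynomial E := ∏ β ∈ R.erase a, (Polynomial.X - Polynomial.C β)
  have hqβ : ∀ β ∈ R, β ≠ a → q.eval β = 0 := by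
    intro β hβ hne
    change (∏ β ∈ R.erase a, (Polynomial.X - Polynomial.C β)).eval β = 0
    rw [Polynomial.eval_prod]
    refine Finset.prod_eq_zero (Finset.mem_erase.2 ⟨hne, hβ⟩) ?_
    rw [Polynomial.eval_sub, Polynomial.eval_X, Polynomial.eval_C, sub_self]
  have hqa : q.eval a ≠ 0 := by
    change (∏ β ∈ R.erase a, (Polynomial.X - Polynomial.C β)).eval a ≠ 0
    rw [Polynomial.eval_prod, Finset.prod_ne_zero_iff]
    intro β hβ
    rw [Polynomial.eval_sub, Polynomial.eval_X, Polynomial.eval_C, sub_ne_zero]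
    exact (Finset.mem_erase.1 hβ).1.symm
  have hzi2 : ∀ i, zi i = ∑ β ∈ R, algebraMap E U (β ^ i) * Φ (gg β) z := by
    intro i
    refine Finset.sum_congr rfl fun β hβ => ?_
    rw [map_mul, hΦ.const, map_pow, hgg β hβ]
  have hsum : ∑ i ∈ Finset.range (q.natDegree + 1), algebraMap E U (q.coeff i) * zi i =
      algebraMap E U (q.eval a) * z := by
    have h1 : ∀ i ∈ Finset.range (q.natDegree + 1), algebraMap E U (q.coeff i) * zi i =
        ∑ β ∈ R, algebraMap E U (q.coeff i * β ^ i) * Φ (gg β) z := by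
      intro i _
      rw [hzi2, Finset.mul_sum]
      refine Finset.sum_congr rfl fun β _ => ?_
      rw [map_mul, mul_assoc]
    rw [Finset.sum_congr rfl h1, Finset.sum_comm]
    have h2 : ∀ β ∈ R, ∑ i ∈ Finset.range (q.natDegree + 1),
        algebraMap E U (q.coeff i * β ^ i) * Φ (gg β) z = algebraMap E U (q.eval β) * Φ (gg β) z := by
      intro β _
      rw [← Finset.sum_mul, Polynomial.eval_eq_sum_range, map_sum]
    rw [Finset.sum_congr rfl h2, Finset.sum_eq_single_of_mem a haR]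
    · rw [hfix (gg a) (hgg a haR)]
    · intro β hβ hne
      rw [hqβ β hβ hne, map_zero, zero_mul]
  have hz' : z = algebraMap E U (q.eval a)⁻¹ *
      ∑ i ∈ Finset.range (q.natDegree + 1), algebraMap E U (q.coeff i) * zi i := by
    rw [hsum, ← mul_assoc, ← map_mul, inv_mul_cancel₀ hqa, map_one, one_mul]
  rw [hz']
  refine mul_mem (IntermediateField.algebraMap_mem _ _) (sum_mem fun i _ => ?_)
  exact mul_mem (IntermediateField.algebraMap_mem _ _) (hziK i)

end au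

end

end Pool.Agent.TOW
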