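import Pool.Agent.Helper79.TW.KGa

/-!
# Project TW (tower), block KG: an involution of a level which fixes a place (general form)
-/

set_option autoImplicit false

namespace Pool.Agent.TOW

open VC IntermediateField Pool.Agent.SC Pool.Agent.L Pool.Agent.M

noncomputable section

variable {E U : Type} [Field E] [Field U] [Algebra E U] {L N : IntermediateField E U}

/-- the place below -/
theorem exists_below79 (hle : L ≤ N) (Q : Place E N) {x : U} (hx : x ∈ L)
    (hxQ : (⟨x, hle hx⟩ : N) ∉ Q.ring) : ∃ b₁ : Place E L, OverPl b₁ Q := by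
  let j : L →ₐ[E] N := IntermediateField.inclusion hle
  refine ⟨{ ring := Q.ring.comap j.toRingHom, algebraMap_mem := fun e => ?_, ne_top := ?_ },
    fun x hx hx' => Iff.rfl⟩
  · change j (algebraMap E _ e) ∈ Q.ring
    rw [AlgHom.commutes]
    exact Q.algebraMap_mem e
  · intro htop
    apply hxQ
    have h1 : (⟨x, hx⟩ : L) ∈ (Q.ring.comap j.toRingHom : ValuationSubring L) := by
      rw [htop]
      exact ValuationSubring.mem_top _
    exact h1

/-- the order of `r ^ 2` is odd -/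
theorem odd79 [IsAlgClosed E] [CharZero E] (hle : L ≤ N) (hL : IsFunctionField E L)
    (hN : IsFunctionField E N) (Q : Place E N) (b₁ : Place E L) (hO : OverPl b₁ Q) (ι : U ≃+* U)
    (hιE : ∀ e : E, ι (algebraMap E U e) = algebraMap E U e) (hιN : ∀ z ∈ N, ι z ∈ N)
    (hιL : ∀ z ∈ L, ι z = z) (hQ : Moves ι N Q Q) {r : U} (hrN : r ∈ N) (hr0 : r ≠ 0)
    (hιr : ι r = -r) (f : L) (hf : (f : U) = r ^ 2) : ¬ (2 : ℤ) ∣ ord b₁.ring f := by
  rintro ⟨m, hm⟩
  let j : L →ₐ[E] N := IntermediateField.inclusion hle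
  have hj : ∀ x : L, ((j x : N) : U) = x := fun x => rfl
  have hb₁ : ∀ x : L, x ∈ b₁.ring ↔ j x ∈ Q.ring := fun x => hO x x.2 (hle x.2)
  obtain ⟨t, ht0, ht⟩ := FF.exists_ord_eq hL b₁ m
  have hf0 : f ≠ 0 := by
    rintro rfl
    exact pow_ne_zero 2 hr0 hf.symm
  set u : L := f / t ^ 2 with hu
  have hu0 : u ≠ 0 := div_ne_zero hf0 (pow_ne_zero _ ht0)
  have hou : ord b₁.ring u = 0 := by
    rw [hu, FF.ord_div hL b₁ hf0 (pow_ne_zero _ ht0), FF.ord_pow hL b₁ ht0, hm, ht]
    push_cast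
    ring
  have hu1 : j u ∈ Q.ring := (hb₁ u).1 ((FF.ord_nonneg_iff hL b₁ hu0).1 (by rw [hou]))
  have hu2 : j u⁻¹ ∈ Q.ring := (hb₁ _).1 ((FF.ord_nonneg_iff hL b₁ (inv_ne_zero hu0)).1 (by
    rw [FF.ord_inv hL b₁ hu0, hou, neg_zero]))
  set v : N := (⟨r, hrN⟩ : N) / j t with hv
  have hjt : j t ≠ 0 := (map_ne_zero j).2 ht0
  have hv2 : v ^ 2 = j u := by
    rw [hv, hu, div_pow, map_div₀, map_pow]
    congr 1
    apply Subtype.ext
    rw [hj, hf]
    rfl
  have hval : Q.ring.valuation (j u) = 1 := by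
    apply le_antisymm
    · rw [ValuationSubring.valuation_le_one_iff]
      exact hu1
    · have h2 : Q.ring.valuation (j u)⁻¹ ≤ 1 := by
        rw [← map_inv₀ j, ValuationSubring.valuation_le_one_iff]
        exact hu2
      have h3 : Q.ring.valuation (j u) ≠ 0 := by
        rw [Valuation.ne_zero_iff]
        exact (map_ne_zero j).2 hu0
      rw [map_inv₀] at h2
      exact (inv_le_one₀ (zero_lt_iff.2 h3)).1 h2
  have hvv : Q.ring.valuation v = 1 := by
    have h1 : Q.ring.valuation v ^ 2 = 1 := by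
      rw [← map_pow, hv2, hval]
    exact (pow_eq_one_iff_of_nonneg zero_le two_ne_zero).1 h1
  let s : N → N := fun x => ⟨ι x, hιN x x.2⟩
  have hs : ∀ x, ((s x : N) : U) = ι x := fun x => rfl
  refine not_unit_of_fixed (E := E) (R := Q.ring) (σ := s) (v := v)
    (ξ := -1) ?_ Q.algebraMap_mem ?_ ?_ ?_ ?_ ?_ ?_
  · intro c x
    apply Subtype.ext
    rw [hs]
    change ι (algebraMap E U c + x) = algebraMap E U c + ι x
    rw [map_add, hιE]
  · intro x hx
    exact FF.exists_residue hN Q hx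
  · intro x hx
    rw [ValuationSubring.mem_nonunits_iff_or] at hx ⊢
    rcases hx with rfl | hx
    · left
      apply Subtype.ext
      rw [hs]
      exact map_zero ι
    · right
      intro h1
      apply hx
      have h2 := hQ ((x⁻¹ : N) : U) (x⁻¹).2 (hιN _ (x⁻¹).2)
      apply h2.2
      convert h1 using 1
      apply Subtype.ext
      change ι ((x : U)⁻¹) = (ι x)⁻¹
      exact map_inv₀ ι _
  · intro h3
    have h4 : (2 : E) = 0 := by linear_combination -h3
    exact two_ne_zero h4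
  · apply Subtype.ext
    rw [hs]
    have e1 : (v : U) = r / (t : U) := rfl
    have e2 : ((algebraMap E N (-1) * v : N) : U) = -(v : U) := by
      rw [map_neg, map_one, neg_one_mul]
      rfl
    rw [e2, e1, map_div₀, hιr, hιL _ t.2, neg_div]
  · rw [← ValuationSubring.valuation_le_one_iff, hvv]
  · rw [ValuationSubring.mem_nonunits_iff, hvv]
    exact lt_irrefl _

/-- the place above is unique -/
theorem uniq79 [IsAlgClosed E] [CharZero E] (hN : IsFunctionField E N) (Q Q' : Place E N)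
    (b₁ : Place E L) (hO : OverPl b₁ Q) (hO' : OverPl b₁ Q') (ι : U ≃+* U)
    (hιN : ∀ z ∈ N, ι z ∈ N) (hι2 : ∀ z ∈ N, ι (ι z) = z) (hfix : ∀ z ∈ N, ι z = z → z ∈ L)
    (hQ : Moves ι N Q Q) : Q' = Q := by
  have hkey : Q.ring ≤ Q'.ring := by
    intro z hz
    have hzN := z.2
    have hιz : (⟨ι z, hιN z hzN⟩ : N) ∈ Q.ring := (hQ z hzN (hιN z hzN)).1 hz
    set w : N := ⟨ι z, hιN z hzN⟩ with hw
    have hsum : ((z + w : N) : U) ∈ L := by
      apply hfix _ (z + w).2
      change ι ((z : U) + ι z) = (z : U) + ι z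
      rw [map_add, hι2 z hzN, add_comm]
    have hprod : ((z * w : N) : U) ∈ L := by
      apply hfix _ (z * w).2
      change ι ((z : U) * ι z) = (z : U) * ι z
      rw [map_mul, hι2 z hzN, mul_comm]
    have h1 : z + w ∈ Q'.ring := by
      have h2 : (⟨_, hsum⟩ : L) ∈ b₁.ring := (hO _ hsum (z + w).2).2 (Q.ring.add_mem _ _ hz hιz)
      exact (hO' _ hsum (z + w).2).1 h2
    have h2 : z * w ∈ Q'.ring := by
      have h2 : (⟨_, hprod⟩ : L) ∈ b₁.ring :=
        (hO _ hprod (z * w).2).2 (Q.ring.mul_mem _ _ hz hιz)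
      exact (hO' _ hprod (z * w).2).1 h2
    by_contra hcon
    have h3 : z = (z + w) - (z * w) * z⁻¹ := by
      have hz0 : z ≠ 0 := by
        rintro rfl
        exact hcon (zero_mem _)
      field_simp
      ring
    have h4 : z⁻¹ ∈ Q'.ring := (Q'.ring.mem_or_inv_mem z).resolve_left hcon
    apply hcon
    rw [h3]
    exact Q'.ring.sub_mem h1 (Q'.ring.mul_mem _ _ h2 h4)
  exact (FF.place_eq_of_le hN hkey).symm

theorem normal_up79 {K0 U : Type} [Field K0] [Field U] [Algebra K0 U] (h : Normal K0 U)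
    (K : IntermediateField K0 U) : Normal K U := Normal.tower_top_of_normal K0 K U

end

end Pool.Agent.TOW
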