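import Pool.Agent.Helper79.TW.KGb
import Pool.Agent.Helper79.TW.KGc

/-!
# Project TW (tower), block KG: the field `KQ Q`

Proof. Let `ι` be an automorphism of `U` over `L0` with `ι r = -r` which fixes the place `Q` of the
level `N`; on `N` it is an involution, and it is the only such automorphism, since an automorphism
over `M` which fixes a place of `N` is trivial on `N`. An element of `N` fixed by `ι` is a linear
combination over `E` of elements fixed by `ι` and by the action (`descent79`), and these are in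
`KQ Q`. So `E (KQ Q)` is the fixed field of `ι` in `N`, and `N = E (KQ Q)(r)`.
-/

set_option autoImplicit false

namespace Pool.Agent.TOW

open VC IntermediateField NumberField Pool.Agent.SC Pool.Agent.L Pool.Agent.M

noncomputable section

/-- **BLOCK KG.** -/
theorem kG (hPX1 : StmtPX1) : StmtKG := by
  intro k K0 E U _ _ _ _ _ _ _ _ _ _ _ _ h r geo n b₀ Q hb₀ hbQ c₀ Φ₀ hc₀ hΦ₀ hQ
  have hcl : IsAlgClosed E := geo.clE
  have halg : Algebra.IsAlgebraic k E := geo.algE
  have hch : CharZero E := charZero_of_injective_algebraMap (algebraMap k E).injective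
  have hchU : CharZero U := charZero_of_injective_algebraMap (algebraMap E U).injective
  obtain ⟨hst, -, hNff, -, htriv, hinv, -, -⟩ := hPX1 k K0 E U h r geo n
  obtain ⟨ι, hιE, hιr, hιQ⟩ := hinv b₀ Q hb₀ hbQ
  have hιN := hst ι hιE.au79
  have hr0 : r ≠ 0 := by
    rintro rfl
    exact geo.rnot (zero_mem _)
  have hι2 : ∀ z ∈ NX E K0 r (2 ^ n), ι (ι z) = z := by
    intro z hz
    exact htriv (ι * ι) Q (hιE.mul79 hιE) (by
      change ι (ι r) = r
      rw [hιr, map_neg, hιr, neg_neg]) (moves_mul79 hιN hιQ hιQ) z hz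
  have hall : ∀ T : U ≃+* U, AuE E K0 T → T r = -r → Moves T _ Q Q →
      ∀ z ∈ NX E K0 r (2 ^ n), T z = ι z := by
    intro T hT hTr hTQ z hz
    have h1 := htriv (T * ι) Q (hT.mul79 hιE) (by
      change T (ι r) = r
      rw [hιr, map_neg, hTr, neg_neg]) (moves_mul79 hιN hTQ hιQ) (ι z) (hιN z hz)
    change T (ι (ι z)) = ι z at h1
    rwa [hι2 z hz] at h1
  have hFJ : ∀ z ∈ NX E K0 r (2 ^ n), ι z = z → FJ Q z := fun z hz h1 =>
    ⟨hz, fun T hT hTr hTQ => by rw [hall T hT hTr hTQ z hz, h1]⟩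
  have hdesc : ∀ z : U, FJ Q z → z ∈ L0 E (KQ Q) (U := U) := fun z hz =>
    descent79 hc₀ hΦ₀ geo.rsq hst htriv hQ hz
  have hle : L0 E (KQ Q) (U := U) ≤ NX E K0 r (2 ^ n) := by
    apply IntermediateField.adjoin_le_iff.2
    rintro _ ⟨z, rfl⟩
    exact z.2.1
  have hfixL : ∀ T : U ≃+* U, AuE E K0 T → Moves T _ Q Q →
      ∀ z ∈ L0 E (KQ Q) (U := U), T z = z := by
    intro T hT hTQ z hz
    change z ∈ IntermediateField.adjoin E _ at hz
    induction hz using IntermediateField.adjoin_induction with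
    | mem x hx =>
      obtain ⟨y, rfl⟩ := hx
      exact y.2.2 T hT.au79 hTQ
    | algebraMap e => exact hT.fixE e
    | add x y _ _ h1 h2 => rw [map_add, h1, h2]
    | inv x _ h1 => rw [map_inv₀, h1]
    | mul x y _ _ h1 h2 => rw [map_mul, h1, h2]
  have hrN : r ∈ NX E K0 r (2 ^ n) :=
    subset_adjoin _ _ (Or.inl (subset_adjoin _ _ (Or.inr rfl)))
  have hLM : L0 E (KQ Q) (U := U) ≤ MM E (KQ Q) r := adjoin.mono _ _ _ Set.subset_union_left
  have hrM : r ∈ MM E (KQ Q) r := subset_adjoin _ _ (Or.inr rfl)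
  have h2N : (2 : U) ∈ NX E K0 r (2 ^ n) := by
    have h1 := _root_.natCast_mem (NX E K0 r (2 ^ n)) 2
    exact_mod_cast h1
  have hMM : MM E (KQ Q) r = NX E K0 r (2 ^ n) := by
    apply le_antisymm
    · apply adjoin_le_iff.2
      rintro z (⟨y, rfl⟩ | hz)
      · exact y.2.1
      · rw [Set.mem_singleton_iff] at hz
        rw [hz]
        exact hrN
    · intro z hz
      have h2 : (2 : U) ≠ 0 := two_ne_zero
      have e : z = (z + ι z) / 2 + r * ((z - ι z) / (2 * r)) := by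
        field_simp
        ring
      rw [e]
      have hz' := hιN z hz
      refine add_mem (hLM (hdesc _ (hFJ _ ?_ ?_))) (mul_mem hrM (hLM (hdesc _ (hFJ _ ?_ ?_))))
      · exact div_mem (add_mem hz hz') h2N
      · rw [map_div₀, map_add, hι2 z hz, map_ofNat, add_comm]
      · exact div_mem (sub_mem hz hz') (mul_mem h2N hrN)
      · rw [map_div₀, map_sub, hι2 z hz, map_mul, map_ofNat, hιr]
        have h3 : (ι z - z) / (2 * -r) = (z - ι z) / (2 * r) := by
          rw [mul_neg, div_neg, ← neg_div, neg_sub]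
        exact h3
  have hK0L : ∀ x : K0, algebraMap K0 U x ∈ L0 E (KQ Q) (U := U) := fun x =>
    subset_adjoin _ _ ⟨algebraMap K0 (KQ Q) x, rfl⟩
  have hL0L : L0 E K0 (U := U) ≤ L0 E (KQ Q) (U := U) := by
    apply adjoin_le_iff.2
    rintro _ ⟨x, rfl⟩
    exact hK0L x
  have hLff : IsFunctionField E (L0 E (KQ Q) (U := U)) := by
    obtain ⟨t, ht, -⟩ := geo.ff
    refine ff_of_le79 hle hNff ⟨t, hL0L t.2, ?_⟩
    exact (transcendental_algebraMap_iff (S := L0 E K0 (U := U)) (A := U)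
      (algebraMap (L0 E K0 (U := U)) U).injective).2 ht
  have hrL : r ∉ L0 E (KQ Q) (U := U) := by
    intro h1
    have h2 := hfixL ι hιE hιQ r h1
    rw [hιr, neg_eq_iff_add_eq_zero, ← two_mul] at h2
    rcases mul_eq_zero.1 h2 with h3 | h3
    · exact two_ne_zero h3
    · exact hr0 h3
  have hMle : MM E K0 r ≤ NX E K0 r (2 ^ n) := fun x hx => subset_adjoin _ _ (Or.inl hx)
  have hrsq : r ^ 2 = algebraMap (KQ Q) U (algebraMap K0 (KQ Q) h) := geo.rsq
  obtain ⟨b₁, hOver⟩ : ∃ b₁ : Place E (L0 E (KQ Q) (U := U)), OverPl b₁ Q := by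
    have h1 : ∃ x : U, ∃ hx : x ∈ L0 E K0 (U := U), (⟨x, hx⟩ : L0 E K0 (U := U)) ∉ b₀.ring := by
      by_contra hcon
      push Not at hcon
      exact b₀.ne_top (top_le_iff.1 fun y _ => hcon y y.2)
    obtain ⟨x, hx, hxb⟩ := h1
    refine exists_below79 hle Q (hL0L hx) ?_
    rwa [← hbQ x hx (hle (hL0L hx))]
  have hodd := odd79 hle hLff hNff Q b₁ hOver ι hιE.fixE hιN (hfixL ι hιE hιQ) hιQ hrN hr0 hιr
    (inL0 (algebraMap K0 (KQ Q) h)) geo.rsq.symm
  have huniq : ∀ Q' : Place E (NX E K0 r (2 ^ n)), OverPl b₁ Q' → Q' = Q := fun Q' hQ' =>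
    uniq79 hNff Q Q' b₁ hOver hQ' ι hιN hι2 (fun z hz h1 => hdesc z (hFJ z hz h1)) hιQ
  have hcov : IsCover (MM E (KQ Q) r) := by
    rw [hMM]
    exact isCover_mono79 geo.cover hMle hNff
  have hnr : ∀ y : MM E (KQ Q) r, IntermediateField.adjoin E {y} ≠ ⊤ := by
    intro y hy
    have h1 : (NX E K0 r (2 ^ n)) = E⟮(y : U)⟯ := by
      rw [← hMM]
      have h2 := congrArg (IntermediateField.map (MM E (KQ Q) r).val) hy
      rw [IntermediateField.adjoin_map, Set.image_singleton] at h2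
      rw [← AlgHom.fieldRange_eq_map, IntermediateField.fieldRange_val] at h2
      exact h2.symm
    obtain ⟨m, hm, hm'⟩ := luroth79 (MM E K0 r) (y : U) (hMle.trans h1.le)
    apply geo.nonrat ⟨m, hm⟩
    apply top_le_iff.1
    rintro ⟨z, hz⟩ -
    have h3 : (E⟮(⟨m, hm⟩ : MM E K0 r)⟯).map (MM E K0 r).val = E⟮m⟯ := by
      rw [IntermediateField.adjoin_map, Set.image_singleton]
      rfl
    have h4 : z ∈ E⟮m⟯ := by
      rw [hm']
      exact hz
    rw [← h3] at h4
    obtain ⟨w, hw, hw'⟩ := h4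
    have h5 : w = ⟨z, hz⟩ := Subtype.ext hw'
    rw [← h5]
    exact hw
  exact ⟨⟨halg, hcl, hLff, hrsq, hrL, hcov, hnr, normal_up79 geo.normal (KQ Q)⟩, hle,
    fun z hz h1 => hdesc z ⟨hz, h1⟩, hfixL, b₁, hodd, hOver, huniq⟩

end

end Pool.Agent.TOW
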