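import Pool.Agent.Helper45.TW.Defs
import Pool.Agent.Helper29.L.K5
import Pool.Agent.Helper17.FF.Approx
import Mathlib.FieldTheory.RatFunc.Luroth

/-!
# Project TW (tower), block KG, first part: Lüroth, levels
-/

set_option autoImplicit false

namespace Pool.Agent.TOW

open VC IntermediateField Pool.Agent.SC Pool.Agent.L Pool.Agent.M

noncomputable section

section general

variable {E U : Type} [Field E] [Field U] [Algebra E U]

/-- **Lüroth's theorem** for subfields of `E(y)` -/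
theorem luroth79 [IsAlgClosed E] (M : IntermediateField E U) (y : U) (hM : M ≤ E⟮y⟯) :
    ∃ m ∈ M, E⟮m⟯ = M := by
  by_cases hy : Transcendental E y
  · let φ : RatFunc E →ₐ[E] U := (E⟮y⟯.val).comp (RatFunc.algEquivOfTranscendental y hy).toAlgHom
    have hφ : ∀ z ∈ E⟮y⟯, ∃ q, φ q = z := by
      intro z hz
      refine ⟨(RatFunc.algEquivOfTranscendental y hy).symm ⟨z, hz⟩, ?_⟩
      change ((RatFunc.algEquivOfTranscendental y hy
        ((RatFunc.algEquivOfTranscendental y hy).symm ⟨z, hz⟩) : E⟮y⟯) : U) = z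
      rw [AlgEquiv.apply_symm_apply]
    have h1 : (M.comap φ).map φ = M := by
      apply le_antisymm
      · rintro z ⟨q, hq, rfl⟩
        exact hq
      · intro z hz
        obtain ⟨q, rfl⟩ := hφ z (hM hz)
        exact ⟨q, hz, rfl⟩
    have h2 := RatFunc.Luroth.eq_adjoin_generator (E := M.comap φ)
    refine ⟨φ (RatFunc.Luroth.generator (M.comap φ)), RatFunc.Luroth.generator_mem (E := M.comap φ), ?_⟩
    conv_rhs => rw [← h1, h2, IntermediateField.adjoin_map, Set.image_singleton]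
  · have h1 : y ∈ (⊥ : IntermediateField E U) := by
      have hint : IsIntegral E y := (not_not.mp hy : IsAlgebraic E y).isIntegral
      have hdeg := IsAlgClosed.degree_eq_one_of_irreducible E (minpoly.irreducible hint)
      exact IntermediateField.mem_bot.2 (minpoly.mem_range_of_degree_eq_one E y hdeg)
    have h2 : M = ⊥ := le_bot_iff.1 (hM.trans (by rw [adjoin_simple_le_iff]; exact h1))
    exact ⟨0, zero_mem _, by rw [h2, adjoin_zero]⟩

/-- a larger level is again a cover situation -/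
theorem isCover_mono79 {M N : IntermediateField E U} (hc : IsCover M) (hMN : M ≤ N)
    (hN : IsFunctionField E N) : IsCover N where
  ff := hN
  gal := by
    have h0 := hc.gal
    let i1 : Algebra M N := (IntermediateField.inclusion hMN).toRingHom.toAlgebra
    have i2 : IsScalarTower M N U := IsScalarTower.of_algebraMap_eq fun x => rfl
    exact IsGalois.tower_top_of_isGalois M N U
  unr := fun W hW u => by
    obtain ⟨m, hm, h⟩ := hc.unr W hW u
    exact ⟨m, hMN hm, h⟩
  root := hc.root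

theorem ff_of_le79 {M N : IntermediateField E U} (hMN : M ≤ N) (hN : IsFunctionField E N)
    (hM : ∃ t : U, t ∈ M ∧ Transcendental E t) : IsFunctionField E M := by
  obtain ⟨t, htM, ht⟩ := hM
  refine ⟨⟨t, htM⟩, ?_, ?_⟩
  · exact (transcendental_algebraMap_iff (S := M) (A := U) (algebraMap M U).injective).1 ht
  · let i1 : Algebra M N := (IntermediateField.inclusion hMN).toRingHom.toAlgebra
    have i2 : IsScalarTower E M N := IsScalarTower.of_algebraMap_eq fun x => rfl
    have htN : Transcendental E (⟨t, hMN htM⟩ : N) :=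
      (transcendental_algebraMap_iff (S := N) (A := U) (algebraMap N U).injective).1 ht
    have hfin := hN.finiteDimensional htN
    -- `N` is finite over `E(t)`
    have h1 : ∀ x : E⟮(⟨t, htM⟩ : M)⟯, algebraMap M N x ∈ E⟮(⟨t, hMN htM⟩ : N)⟯ := by
      intro x
      have h2 : (E⟮(⟨t, htM⟩ : M)⟯).map (IsScalarTower.toAlgHom E M N) = E⟮(⟨t, hMN htM⟩ : N)⟯ := by
        rw [IntermediateField.adjoin_map, Set.image_singleton]
        rfl
      rw [← h2]
      exact ⟨x, x.2, rfl⟩
    let f : E⟮(⟨t, htM⟩ : M)⟯ →+* E⟮(⟨t, hMN htM⟩ : N)⟯ :=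
      ((algebraMap M N).comp (algebraMap E⟮(⟨t, htM⟩ : M)⟯ M)).codRestrict
        (E⟮(⟨t, hMN htM⟩ : N)⟯).toSubfield h1
    have hf : Function.Surjective f := by
      rintro ⟨y, hy⟩
      have h2 : (E⟮(⟨t, htM⟩ : M)⟯).map (IsScalarTower.toAlgHom E M N) = E⟮(⟨t, hMN htM⟩ : N)⟯ := by
        rw [IntermediateField.adjoin_map, Set.image_singleton]
        rfl
      have hy' := hy
      rw [← h2] at hy'
      obtain ⟨x, hx, rfl⟩ := hy'
      exact ⟨⟨x, hx⟩, rfl⟩
    let i3 : Algebra E⟮(⟨t, htM⟩ : M)⟯ E⟮(⟨t, hMN htM⟩ : N)⟯ := f.toAlgebra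
    let i3' : Module E⟮(⟨t, htM⟩ : M)⟯ E⟮(⟨t, hMN htM⟩ : N)⟯ := i3.toModule
    have i4 : IsScalarTower E⟮(⟨t, htM⟩ : M)⟯ E⟮(⟨t, hMN htM⟩ : N)⟯ N :=
      IsScalarTower.of_algebraMap_eq fun x => rfl
    have i5 : FiniteDimensional E⟮(⟨t, htM⟩ : M)⟯ E⟮(⟨t, hMN htM⟩ : N)⟯ :=
      Module.Finite.of_surjective
        (Algebra.linearMap E⟮(⟨t, htM⟩ : M)⟯ E⟮(⟨t, hMN htM⟩ : N)⟯) hf
    have i6 : FiniteDimensional E⟮(⟨t, htM⟩ : M)⟯ N :=
      FiniteDimensional.trans E⟮(⟨t, htM⟩ : M)⟯ E⟮(⟨t, hMN htM⟩ : N)⟯ N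
    have i7 : IsScalarTower E⟮(⟨t, htM⟩ : M)⟯ M N := IsScalarTower.of_algebraMap_eq fun x => rfl
    exact FiniteDimensional.of_injective
      ((IsScalarTower.toAlgHom E⟮(⟨t, htM⟩ : M)⟯ M N).toLinearMap) (algebraMap M N).injective

end general

end

end Pool.Agent.TOW
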