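import Pool.Agent.Helper97.TW.Defs
import Pool.Agent.Helper59.M.NR
import Pool.Agent.SC.VP0

/-!
# Project TW, block EV: the number of branch places is even

The degree of the divisor of `h` is `0`.
-/

set_option autoImplicit false

namespace Pool.Agent.TW

open VC Filter Topology NumberField IsDedekindDomain IntermediateField Pool.Agent.SC Pool.Agent.L
open Pool.Agent.M (BPl inL0)

theorem even_card_odd79 {ι : Type*} (S : Finset ι) (f : ι → ℤ) (h : ∑ i ∈ S, f i = 0) [DecidablePred fun i => ¬ (2 : ℤ) ∣ f i] :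
    Even (S.filter fun i => ¬ (2 : ℤ) ∣ f i).card := by
  have h1 : ((∑ i ∈ S, f i : ℤ) : ZMod 2) = ((S.filter fun i => ¬ (2 : ℤ) ∣ f i).card : ZMod 2) := by
    rw [Int.cast_sum, Finset.card_filter, Nat.cast_sum]
    refine Finset.sum_congr rfl fun i _ => ?_
    by_cases hi : (2 : ℤ) ∣ f i
    · rw [if_neg (not_not.mpr hi)]
      have h3 : ((f i : ℤ) : ZMod 2) = 0 := by
        rw [ZMod.intCast_zmod_eq_zero_iff_dvd]
        exact hi
      rw [h3]
      norm_num
    · rw [if_pos hi]
      have h2 : f i % 2 = 1 := by omega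
      have h3 : ((f i : ℤ) : ZMod 2) = ((1 : ℤ) : ZMod 2) := by
        rw [ZMod.intCast_eq_intCast_iff]
        exact h2
      rw [h3]
      norm_num
  rw [h, Int.cast_zero] at h1
  exact (ZMod.natCast_eq_zero_iff_even).mp h1.symm

/-- **BLOCK EV.** -/
theorem eV : StmtEV := by
  classical
  intro k K0 E U _ _ _ _ _ _ _ _ _ _ _ _ h r geo
  have hcl : IsAlgClosed E := geo.clE
  have hch : CharZero E := charZero_of_injective_algebraMap (algebraMap k E).injective
  have hff : IsFunctionField E (L0 E K0 (U := U)) := geo.ff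
  have hr0 : r ≠ 0 := by
    rintro rfl
    exact geo.rnot (zero_mem _)
  have hh0 : (inL0 h : L0 E K0 (U := U)) ≠ 0 := by
    intro h1
    have h2 : algebraMap K0 U h = 0 := congrArg Subtype.val h1
    have h3 := geo.rsq
    rw [h2] at h3
    exact hr0 (pow_eq_zero_iff two_ne_zero |>.1 h3)
  have h1 := SCVP.degree_zero hff hh0
  have h2 := even_card_odd79 _ _ h1
  have h3 : Nat.card {b : Place E (L0 E K0 (U := U)) // BPl h b} =
      Nat.card {b : Place E (L0 E K0 (U := U)) // b ∈ (VC.finite_support_ord hff hh0).toFinset.filter fun i =>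
        ¬ (2 : ℤ) ∣ ord i.ring (inL0 h)} := by
    refine Nat.card_congr (Equiv.subtypeEquivRight fun b => ?_)
    rw [Finset.mem_filter, Set.Finite.mem_toFinset]
    refine ⟨fun hb => ⟨?_, hb⟩, fun hb => hb.2⟩
    intro h0
    apply hb
    rw [h0]
    exact dvd_zero _
  rw [h3, Nat.card_eq_fintype_card, Fintype.card_coe]
  exact h2

end Pool.Agent.TW
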